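import Pool.Agent.J4.H60.MS.Main

set_option autoImplicit false

/-! # Classes and cochains -/

namespace Pool.Agent.J4.H60.MS

open Finset

universe u

section

variable {p : ℕ} {G : Type*} [Group G] [TopologicalSpace G]

theorem sum_coe {k : ℕ} (d : Fin k → Z2 p G) (x : G × G) :
    (∑ i, d i).1 x = ∑ i, (d i).1 x := by
  rw [AddSubgroup.val_finsetSum, Finset.sum_apply]

theorem cls_surjective (α : H2 p G) : ∃ c : Z2 p G, cls c = α := QuotientAddGroup.mk_surjective α

theorem cls_sum {k : ℕ} (d : Fin k → Z2 p G) : ∑ i, cls (d i) = cls (∑ i, d i) := by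
  have h : ∀ c : Z2 p G, cls c =
      QuotientAddGroup.mk' ((B2 p G).addSubgroupOf (Z2 p G)) c := fun c => rfl
  rw [h]
  exact (map_sum (QuotientAddGroup.mk' ((B2 p G).addSubgroupOf (Z2 p G))) d Finset.univ).symm

theorem cls_eq_iff (c d : Z2 p G) : cls c = cls d ↔ ∃ b : G → ZMod p, IsLocallyConstant b ∧
    ∀ g h, - c.1 (g, h) + d.1 (g, h) = b h - b (g * h) + b g := by
  have h : cls c = cls d ↔ -c + d ∈ (B2 p G).addSubgroupOf (Z2 p G) := QuotientAddGroup.eq
  rw [h, AddSubgroup.mem_addSubgroupOf]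
  rfl

theorem isSum_iff (k : ℕ) (c : Z2 p G) :
    IsSumOfSymbols k (cls c) ↔ SL p k fun g h => c.1 (g, h) := by
  constructor
  · rintro ⟨ψ, ψ', h⟩
    rw [cls_sum, cls_eq_iff] at h
    obtain ⟨b, hb, hb'⟩ := h
    refine ⟨fun i => (ψ i).1, fun i => (ψ' i).1, fun g => - b g, fun i => (ψ i).2.1,
      fun i => (ψ i).2.2, fun i => (ψ' i).2.1, fun i => (ψ' i).2.2, hb.neg, fun g h => ?_⟩
    have h2 := hb' g h
    rw [sum_coe] at h2
    have h3 : ∀ i, (cupZ (ψ i) (ψ' i)).1 (g, h) = (ψ i).1 g * (ψ' i).1 h := fun i => rfl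
    simp only [h3] at h2
    linear_combination - h2
  · rintro ⟨ψ, ψ', b, h1, h2, h3, h4, h5, h6⟩
    refine ⟨fun i => ⟨ψ i, h1 i, h2 i⟩, fun i => ⟨ψ' i, h3 i, h4 i⟩, ?_⟩
    rw [cls_sum, cls_eq_iff]
    refine ⟨fun g => - b g, h5.neg, fun g h => ?_⟩
    rw [sum_coe]
    have e4 : ∀ i, (cupZ (⟨ψ i, h1 i, h2 i⟩ : H1 p G) ⟨ψ' i, h3 i, h4 i⟩).1 (g, h) =
        ψ i g * ψ' i h := fun i => rfl
    simp only [e4]
    have e5 : c.1 (g, h) = ∑ i, ψ i g * ψ' i h + (b h - b (g * h) + b g) := h6 g h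
    linear_combination - e5

theorem isSum_mono {k l : ℕ} {α : H2 p G} (h : IsSumOfSymbols k α) (hkl : k ≤ l) :
    IsSumOfSymbols l α := by
  obtain ⟨c, rfl⟩ := cls_surjective α
  rw [isSum_iff] at h ⊢
  exact h.mono hkl

theorem symbolLength_le_iff {α : H2 p G} {M : ℕ} :
    symbolLength α ≤ M ↔ IsSumOfSymbols M α := by
  constructor
  · intro h
    by_contra hcon
    have h1 : ∀ m ∈ {m : ℕ | IsSumOfSymbols m α}, ((M + 1 : ℕ) : ℕ∞) ≤ (m : ℕ∞) := by
      intro m hm
      by_contra h2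
      rw [Nat.cast_le, not_le] at h2
      exact hcon (isSum_mono hm (by omega))
    have h2 : ((M + 1 : ℕ) : ℕ∞) ≤ symbolLength α := le_iInf₂ h1
    have h3 := h2.trans h
    rw [Nat.cast_le] at h3
    omega
  · intro h
    exact iInf₂_le M h

theorem symbolLength_lt_top_iff {α : H2 p G} :
    symbolLength α < ⊤ ↔ ∃ k, IsSumOfSymbols k α := by
  constructor
  · intro h
    obtain ⟨k, hk⟩ := ENat.ne_top_iff_exists.1 h.ne
    exact ⟨k, symbolLength_le_iff.1 hk.ge⟩
  · rintro ⟨k, hk⟩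
    exact (symbolLength_le_iff.2 hk).trans_lt (ENat.natCast_lt_top k)

/-- the value of a defining system is a cocycle -/
theorem value_exists {n : ℕ} {φ : ℕ → H1 p G} (D : DefiningSystem n φ) :
    ∃ c : Z2 p G, IsValue D c := by
  refine ⟨⟨fun x => ∑ k ∈ Ioo 1 (n + 1), D.a 1 k x.1 * D.a k (n + 1) x.2, ?_, ?_⟩,
    fun g h => rfl⟩
  · have h1 : ∀ k ∈ Ioo 1 (n + 1), IsLocallyConstant fun x : G × G =>
        D.a 1 k x.1 * D.a k (n + 1) x.2 := by
      intro k hk
      rw [mem_Ioo] at hk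
      exact ((D.continuous 1 k le_rfl hk.1 hk.2.le (by omega)).comp_continuous continuous_fst).mul
        ((D.continuous k (n + 1) hk.1.le hk.2 le_rfl (by omega)).comp_continuous continuous_snd)
    rw [IsLocallyConstant.iff_eventually_eq]
    intro x
    have h2 : ∀ᶠ y in nhds x, ∀ k ∈ Ioo 1 (n + 1),
        D.a 1 k y.1 * D.a k (n + 1) y.2 = D.a 1 k x.1 * D.a k (n + 1) x.2 := by
      rw [Filter.eventually_all_finset]
      exact fun k hk => (IsLocallyConstant.iff_eventually_eq _).1 (h1 k hk) x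
    filter_upwards [h2] with y hy
    exact sum_congr rfl hy
  · intro g h l
    have e1 : ∀ k ∈ Ioo 1 (n + 1), D.a 1 k (g * h) =
        D.a 1 k g + D.a 1 k h - ∑ j ∈ Ioo 1 k, D.a 1 j g * D.a j k h := by
      intro k hk
      rw [mem_Ioo] at hk
      have := D.relation 1 k le_rfl hk.1 hk.2.le (by omega) g h
      linear_combination - this
    have e2 : ∀ k ∈ Ioo 1 (n + 1), D.a k (n + 1) (h * l) =
        D.a k (n + 1) h + D.a k (n + 1) l - ∑ j ∈ Ioo k (n + 1), D.a k j h * D.a j (n + 1) l := by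
      intro k hk
      rw [mem_Ioo] at hk
      have := D.relation k (n + 1) hk.1.le hk.2 le_rfl (by omega) h l
      linear_combination - this
    have e3 : ∑ k ∈ Ioo 1 (n + 1), (∑ j ∈ Ioo 1 k, D.a 1 j g * D.a j k h) * D.a k (n + 1) l =
        ∑ k ∈ Ioo 1 (n + 1), D.a 1 k g * ∑ j ∈ Ioo k (n + 1), D.a k j h * D.a j (n + 1) l := by
      simp only [sum_mul, mul_sum]
      rw [sum_comm' (t' := Ioo 1 (n + 1)) (s' := fun j => Ioo j (n + 1))]
      · refine sum_congr rfl fun j _ => sum_congr rfl fun k _ => ?_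
        ring
      · intro k j
        simp only [mem_Ioo]
        omega
    show ∑ k ∈ Ioo 1 (n + 1), D.a 1 k h * D.a k (n + 1) l -
      ∑ k ∈ Ioo 1 (n + 1), D.a 1 k (g * h) * D.a k (n + 1) l +
      ∑ k ∈ Ioo 1 (n + 1), D.a 1 k g * D.a k (n + 1) (h * l) -
      ∑ k ∈ Ioo 1 (n + 1), D.a 1 k g * D.a k (n + 1) h = 0
    have e4 : ∑ k ∈ Ioo 1 (n + 1), D.a 1 k (g * h) * D.a k (n + 1) l =
        ∑ k ∈ Ioo 1 (n + 1), (D.a 1 k g * D.a k (n + 1) l + D.a 1 k h * D.a k (n + 1) l -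
          (∑ j ∈ Ioo 1 k, D.a 1 j g * D.a j k h) * D.a k (n + 1) l) :=
      sum_congr rfl fun k hk => by rw [e1 k hk]; ring
    have e5 : ∑ k ∈ Ioo 1 (n + 1), D.a 1 k g * D.a k (n + 1) (h * l) =
        ∑ k ∈ Ioo 1 (n + 1), (D.a 1 k g * D.a k (n + 1) h + D.a 1 k g * D.a k (n + 1) l -
          D.a 1 k g * ∑ j ∈ Ioo k (n + 1), D.a k j h * D.a j (n + 1) l) :=
      sum_congr rfl fun k hk => by rw [e2 k hk]; ring
    rw [e4, e5, sum_sub_distrib, sum_sub_distrib, sum_add_distrib, sum_add_distrib, e3]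
    ring

end

/-- the admissible pairs of indices -/
def V (n i j : ℕ) : Prop := 1 ≤ i ∧ i < j ∧ j ≤ n + 1 ∧ ¬ (i = 1 ∧ j = n + 1)

instance (n i j : ℕ) : Decidable (V n i j) := by unfold V; infer_instance

section

variable (p n : ℕ)

/-- the values of a defining system at an element -/
abbrev TT : Type := Fin (n + 2) → Fin (n + 2) → ZMod p

variable {p n}

/-- the coordinates -/
def ext (x : TT p n) (i j : ℕ) : ZMod p :=
  if h : i < n + 2 ∧ j < n + 2 then x ⟨i, h.1⟩ ⟨j, h.2⟩ else 0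

variable (n) in
/-- the point with given coordinates -/
def pt (a : ℕ → ℕ → ZMod p) : TT p n := fun i j => if V n i j then a i j else 0

theorem ext_pt (a : ℕ → ℕ → ZMod p) {i j : ℕ} (h : V n i j) : ext (pt n a) i j = a i j := by
  have h' := h
  obtain ⟨h1, h2, h3, h4⟩ := h
  unfold ext
  rw [dif_pos ⟨by omega, by omega⟩]
  unfold pt
  rw [if_pos h']

/-- the multiplication law -/
def mu (x y : TT p n) : TT p n :=
  pt n fun i j => ext x i j + ext y i j - ∑ k ∈ Ioo i j, ext x i k * ext y k j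

/-- the value of the Massey product -/
def kap (x y : TT p n) : ZMod p := ∑ k ∈ Ioo 1 (n + 1), ext x 1 k * ext y k (n + 1)

variable {G : Type*} [Group G] [TopologicalSpace G]

/-- from defining systems to multiplicative maps -/
theorem of_system {φ : ℕ → H1 p G} (D : DefiningSystem n φ) :
    ∃ f : G → TT p n, IsLocallyConstant f ∧ (∀ g h, f (g * h) = mu (f g) (f h)) ∧
      ∀ g h, kap (f g) (f h) = ∑ k ∈ Ioo 1 (n + 1), D.a 1 k g * D.a k (n + 1) h := by
  have he : ∀ {i j : ℕ}, V n i j → ∀ g, ext (pt n fun i j => D.a i j g) i j = D.a i j g :=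
    fun h g => ext_pt _ h
  refine ⟨fun g => pt n fun i j => D.a i j g, ?_, ?_, ?_⟩
  · refine lc_pi (fun (i : Fin (n + 2)) g => fun j : Fin (n + 2) =>
      if V n i j then D.a i j g else 0) fun i => ?_
    refine lc_pi (fun (j : Fin (n + 2)) g => if V n i j then D.a i j g else 0) fun j => ?_
    by_cases h : V n i j
    · simp only [if_pos h]
      exact D.continuous i j h.1 h.2.1 h.2.2.1 h.2.2.2
    · simp only [if_neg h]
      exact IsLocallyConstant.const 0
  · intro g h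
    funext i j
    by_cases hV : V n i j
    · show (if V n i j then D.a i j (g * h) else 0) = if V n i j then _ else 0
      rw [if_pos hV, if_pos hV, he hV, he hV]
      have h1 : ∑ k ∈ Ioo (i : ℕ) j, ext (pt n fun i j => D.a i j g) i k *
          ext (pt n fun i j => D.a i j h) k j = ∑ k ∈ Ioo (i : ℕ) j, D.a i k g * D.a k j h := by
        refine sum_congr rfl fun k hk => ?_
        rw [mem_Ioo] at hk
        obtain ⟨v1, v2, v3, v4⟩ := hV
        rw [he ⟨v1, hk.1, by omega, by omega⟩, he ⟨by omega, hk.2, v3, by omega⟩]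
      rw [h1]
      have := D.relation i j hV.1 hV.2.1 hV.2.2.1 hV.2.2.2 g h
      linear_combination - this
    · show (if V n i j then D.a i j (g * h) else 0) = if V n i j then _ else 0
      rw [if_neg hV, if_neg hV]
  · intro g h
    unfold kap
    refine sum_congr rfl fun k hk => ?_
    rw [mem_Ioo] at hk
    rw [he ⟨le_rfl, hk.1, by omega, by omega⟩, he ⟨by omega, hk.2, le_rfl, by omega⟩]

/-- from multiplicative maps to defining systems -/
theorem to_system (hn : 2 ≤ n) (f : G → TT p n) (hf : IsLocallyConstant f)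
    (hm : ∀ g h, f (g * h) = mu (f g) (f h)) :
    ∃ (φ : ℕ → H1 p G) (D : DefiningSystem n φ),
      ∀ g h, kap (f g) (f h) = ∑ k ∈ Ioo 1 (n + 1), D.a 1 k g * D.a k (n + 1) h := by
  have hlc : ∀ i j, IsLocallyConstant fun g => ext (f g) i j := fun i j =>
    hf.comp fun x => ext x i j
  have hrel : ∀ i j, V n i j → ∀ g h, ext (f h) i j - ext (f (g * h)) i j + ext (f g) i j =
      ∑ k ∈ Ioo i j, ext (f g) i k * ext (f h) k j := by
    intro i j hV g h
    rw [hm, mu, ext_pt _ hV]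
    ring
  have hhom : ∀ i, 1 ≤ i → i ≤ n → ∀ g h, ext (f (g * h)) i (i + 1) =
      ext (f g) i (i + 1) + ext (f h) i (i + 1) := by
    intro i h1 h2 g h
    have h3 := hrel i (i + 1) ⟨h1, by omega, by omega, by omega⟩ g h
    have h4 : Ioo i (i + 1) = ∅ := by
      ext k
      simp only [mem_Ioo, notMem_empty, iff_false]
      omega
    rw [h4, sum_empty] at h3
    linear_combination - h3
  obtain ⟨φ, hφ⟩ : ∃ φ : ℕ → H1 p G, ∀ i, 1 ≤ i → i ≤ n →
      (fun g => ext (f g) i (i + 1)) = (φ i).1 := by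
    refine ⟨fun i => if h : 1 ≤ i ∧ i ≤ n then
      (⟨fun g => ext (f g) i (i + 1), hlc _ _, hhom i h.1 h.2⟩ : H1 p G)
      else (⟨fun _ => 0, IsLocallyConstant.const 0, fun _ _ => by simp⟩ : H1 p G),
      fun i h1 h2 => ?_⟩
    have h3 : (if h : 1 ≤ i ∧ i ≤ n then
      (⟨fun g => ext (f g) i (i + 1), hlc _ _, hhom i h.1 h.2⟩ : H1 p G)
      else (⟨fun _ => 0, IsLocallyConstant.const 0, fun _ _ => by simp⟩ : H1 p G)) =
        ⟨fun g => ext (f g) i (i + 1), hlc _ _, hhom i h1 h2⟩ := dif_pos ⟨h1, h2⟩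
    exact (congrArg Subtype.val h3).symm
  exact ⟨φ, ⟨fun i j g => ext (f g) i j, fun i j _ _ _ _ => hlc i j, hφ,
    fun i j h1 h2 h3 h4 g h => hrel i j ⟨h1, h2, h3, h4⟩ g h⟩, fun g h => rfl⟩

end

end Pool.Agent.J4.H60.MS
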