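import Pool.Agent.J4.H60.MS.Sep

set_option autoImplicit false

/-! # The Galois group of an ultraproduct -/

namespace Pool.Agent.J4.H60.MS

open Filter Polynomial

universe u

/-- an element with a finite orbit is separable -/
theorem isSeparable_of_finite_orbit {k W Γ : Type*} [Field k] [Field W] [Algebra k W] [Group Γ]
    (a : Γ →* (W ≃ₐ[k] W)) (hfix : ∀ x, (∀ γ, a γ x = x) → ∃ y : k, algebraMap k W y = x)
    (x : W) (hfin : (Set.range fun γ => a γ x).Finite) : IsSeparable k x := by
  classical
  obtain ⟨O, hO⟩ : ∃ O : Finset W, ∀ o, o ∈ O ↔ ∃ γ, a γ x = o :=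
    ⟨hfin.toFinset, fun o => by rw [Set.Finite.mem_toFinset]; rfl⟩
  obtain ⟨P, hP⟩ : ∃ P : W[X], P = ∏ o ∈ O, (X - C o) := ⟨_, rfl⟩
  have hinv : ∀ γ, P.map (a γ : W →+* W) = P := by
    intro γ
    rw [hP, Polynomial.map_prod]
    have h1 : ∀ o ∈ O, a γ o ∈ O := by
      intro o ho
      obtain ⟨γ', rfl⟩ := (hO o).1 ho
      refine (hO _).2 ⟨γ * γ', ?_⟩
      rw [map_mul]
      rfl
    have h2 : O.image (a γ) = O := by
      refine Finset.eq_of_subset_of_card_le ?_ ?_
      · intro o ho
        obtain ⟨o', ho', rfl⟩ := Finset.mem_image.1 ho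
        exact h1 o' ho'
      · rw [Finset.card_image_of_injective _ (a γ).injective]
    conv_rhs => rw [← h2]
    rw [Finset.prod_image (fun b _ c _ h => (a γ).injective h)]
    refine Finset.prod_congr rfl fun o _ => ?_
    rw [Polynomial.map_sub, map_X, map_C]
    rfl
  have hlift : P ∈ Polynomial.lifts (algebraMap k W) := by
    rw [Polynomial.lifts_iff_coeff_lifts]
    intro n
    obtain ⟨y, hy⟩ := hfix (P.coeff n) (fun γ => by
      conv_rhs => rw [← hinv γ]
      rw [coeff_map]
      rfl)
    exact ⟨y, hy⟩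
  obtain ⟨Q, hQ⟩ := (Polynomial.mem_lifts _).1 hlift
  have hPsep : P.Separable := by
    rw [hP]
    exact Polynomial.separable_prod_X_sub_C_iff'.2 fun _ _ _ _ h => h
  have hQsep : Q.Separable := by
    rw [← hQ] at hPsep
    exact (Polynomial.separable_map _).1 hPsep
  have hx : x ∈ O := (hO x).2 ⟨1, by rw [map_one]; rfl⟩
  have hroot : aeval x Q = 0 := by
    rw [aeval_def, ← eval_map, hQ, hP, eval_prod]
    exact Finset.prod_eq_zero hx (by simp)
  exact hQsep.of_dvd (minpoly.dvd _ _ hroot)

variable (U : Ultrafilter ℕ) {K S : ℕ → Type u} [∀ m, Field (K m)] [∀ m, Field (S m)]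
  [∀ m, Algebra (K m) (S m)]

section fixed

variable [∀ m, IsGalois (K m) (S m)]

/-- the elements fixed by all families of automorphisms -/
theorem mem_of_fixed (x : Up U S) (hx : ∀ θ : ∀ m, S m ≃ₐ[K m] S m, act U θ x = x) :
    ∃ y : Up U K, algebraMap (Up U K) (Up U S) y = x := by
  classical
  obtain ⟨x, rfl⟩ := cl_surjective U x
  have h1 : ∀ᶠ m in (U : Filter ℕ), x m ∈ Set.range (algebraMap (K m) (S m)) := by
    by_contra hcon
    rw [← Ultrafilter.eventually_not] at hcon
    let θ : ∀ m, S m ≃ₐ[K m] S m := fun m =>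
      if h : ∃ f : S m ≃ₐ[K m] S m, f (x m) ≠ x m then h.choose else 1
    have h2 := hx θ
    rw [act_cl, cl_eq] at h2
    obtain ⟨m, hm1, hm2⟩ := (hcon.and h2).exists
    rw [InfiniteGalois.mem_range_algebraMap_iff_fixed] at hm1
    have h3 : ∃ f : S m ≃ₐ[K m] S m, f (x m) ≠ x m := by
      push Not at hm1
      exact hm1
    simp only [θ, dif_pos h3] at hm2
    exact h3.choose_spec hm2
  let y : ∀ m, K m := fun m => if h : ∃ y : K m, algebraMap (K m) (S m) y = x m then h.choose else 0
  refine ⟨cl U y, ?_⟩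
  rw [algebraMap_cl, cl_eq]
  filter_upwards [h1] with m hm
  have hm' : ∃ y : K m, algebraMap (K m) (S m) y = x m := hm
  simp only [y, dif_pos hm']
  exact hm'.choose_spec

/-- an element with a finite orbit is separable -/
theorem isSeparable_of_orbit (x : Up U S)
    (hfin : (Set.range fun θ : ∀ m, S m ≃ₐ[K m] S m => act U θ x).Finite) :
    IsSeparable (Up U K) x :=
  isSeparable_of_finite_orbit (act U) (mem_of_fixed U) x hfin

end fixed

section

variable (E : Type u) [Field E] [Algebra (Up U K) E] [IsGalois (Up U K) E] [IsSepClosed E]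
  [∀ m, IsGalois (K m) (S m)] [∀ m, IsSepClosed (S m)]

variable (K S) in
/-- the embedding into the ultraproduct -/
noncomputable def emb : E →ₐ[Up U K] Up U S := IsSepClosed.lift

/-- the restriction of automorphisms to `E` -/
noncomputable def res : (Up U S ≃ₐ[Up U K] Up U S) →* (E ≃ₐ[Up U K] E) :=
  letI : Algebra E (Up U S) := (emb U K S E).toRingHom.toAlgebra
  haveI : IsScalarTower (Up U K) E (Up U S) :=
    IsScalarTower.of_algebraMap_eq fun x => ((emb U K S E).commutes x).symm
  AlgEquiv.restrictNormalHom E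

theorem emb_res (σ : Up U S ≃ₐ[Up U K] Up U S) (x : E) :
    emb U K S E (res U E σ x) = σ (emb U K S E x) :=
  letI : Algebra E (Up U S) := (emb U K S E).toRingHom.toAlgebra
  haveI : IsScalarTower (Up U K) E (Up U S) :=
    IsScalarTower.of_algebraMap_eq fun x => ((emb U K S E).commutes x).symm
  AlgEquiv.restrictNormal_commutes σ E x

variable (K S) in
/-- the homomorphism from the product of the Galois groups -/
noncomputable def pro : (∀ m, S m ≃ₐ[K m] S m) →* (E ≃ₐ[Up U K] E) :=
  (res U E).comp (act U)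

theorem emb_pro (θ : ∀ m, S m ≃ₐ[K m] S m) (x : E) :
    emb U K S E (pro U K S E θ x) = act U θ (emb U K S E x) := emb_res U E _ x

/-- separable elements come from `E` -/
theorem mem_range_emb {x : Up U S} (hx : IsSeparable (Up U K) x) : ∃ y : E, emb U K S E y = x := by
  have h1 : ((minpoly (Up U K) x).map (algebraMap (Up U K) E)).Splits :=
    IsSepClosed.splits_codomain _ hx
  have h2 := Polynomial.Splits.image_rootSet h1 (emb U K S E)
  have h3 : x ∈ (minpoly (Up U K) x).rootSet (Up U S) := by
    rw [mem_rootSet]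
    exact ⟨minpoly.ne_zero hx.isIntegral, minpoly.aeval _ _⟩
  rw [← h2] at h3
  obtain ⟨y, -, hy⟩ := h3
  exact ⟨y, hy⟩

theorem dense_pro : DenseRange (pro U K S E) := by
  let H : ClosedSubgroup (E ≃ₐ[Up U K] E) :=
    ⟨(pro U K S E).range.topologicalClosure, Subgroup.isClosed_topologicalClosure _⟩
  have h1 : IntermediateField.fixedField H.1 = (⊥ : IntermediateField (Up U K) E) := by
    rw [eq_bot_iff]
    intro x hx
    rw [IntermediateField.mem_fixedField_iff] at hx
    obtain ⟨y, hy⟩ := mem_of_fixed U (K := K) (emb U K S E x) (fun θ => by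
      rw [← emb_pro]
      congr 1
      exact hx _ (Subgroup.le_topologicalClosure _ ⟨θ, rfl⟩))
    rw [IntermediateField.mem_bot]
    refine ⟨y, (emb U K S E).injective ?_⟩
    show emb U K S E _ = emb U K S E x
    rw [← hy]
    exact (emb U K S E).commutes y
  have h2 := InfiniteGalois.fixingSubgroup_fixedField H
  rw [h1, IntermediateField.fixingSubgroup_bot] at h2
  intro σ
  have h3 : σ ∈ H.1 := by
    rw [← h2]
    exact Subgroup.mem_top σ
  exact h3

end

end Pool.Agent.J4.H60.MS
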