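import Mathlib

set_option autoImplicit false

/-! # Massey products in the cohomology of the maximal pro-`p` Galois group: definitions -/

namespace Pool.Agent.J4.H60.MS

universe u

/-- The kernel of the maximal pro-`p` quotient of a topological group: the intersection of the open
normal subgroups whose index is a power of `p`. -/
def proPKernel (p : ℕ) (G : Type*) [Group G] [TopologicalSpace G] : Subgroup G :=
  sInf {N | N.Normal ∧ IsOpen (N : Set G) ∧ ∃ k : ℕ, N.index = p ^ k}

instance proPKernel_normal (p : ℕ) (G : Type*) [Group G] [TopologicalSpace G] :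
    (proPKernel p G).Normal := by
  constructor
  intro n hn g
  rw [proPKernel, Subgroup.mem_sInf] at hn ⊢
  intro N hN
  exact hN.1.conj_mem n (hn N hN) g

/-- The maximal pro-`p` quotient of a topological group. -/
def ProPQuotient (p : ℕ) (G : Type u) [Group G] [TopologicalSpace G] : Type u :=
  G ⧸ proPKernel p G

instance (p : ℕ) (G : Type u) [Group G] [TopologicalSpace G] : Group (ProPQuotient p G) :=
  QuotientGroup.Quotient.group (proPKernel p G)

/-- The quotient topology. -/
instance (p : ℕ) (G : Type u) [Group G] [TopologicalSpace G] :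
    TopologicalSpace (ProPQuotient p G) :=
  QuotientGroup.instTopologicalSpace (proPKernel p G)

/-- The absolute Galois group: the Galois group of the separable closure. -/
def Gal (F : Type u) [Field F] : Type u := SeparableClosure F ≃ₐ[F] SeparableClosure F

noncomputable instance (F : Type u) [Field F] : Group (Gal F) :=
  AlgEquiv.aut (R := F) (A₁ := SeparableClosure F)

/-- The Krull topology. -/
noncomputable instance (F : Type u) [Field F] : TopologicalSpace (Gal F) :=
  krullTopology F (SeparableClosure F)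

/-- The maximal pro-`p` Galois group `G_F(p)` of a field `F`. -/
abbrev GFp (p : ℕ) (F : Type u) [Field F] : Type u := ProPQuotient p (Gal F)

section

variable (p : ℕ) (G : Type*) [Group G] [TopologicalSpace G]

/-- `H¹(G, ℤ/p)`, trivial action: the continuous homomorphisms from `G` to `ℤ/p`. Cochains are
continuous for the discrete topology of `ℤ/p`, that is locally constant. -/
def H1 : Type _ := {f : G → ZMod p // IsLocallyConstant f ∧ ∀ g h, f (g * h) = f g + f h}

/-- The continuous 2-cocycles of `G` with values in `ℤ/p`. -/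
def Z2 : AddSubgroup (G × G → ZMod p) where
  carrier := {c | IsLocallyConstant c ∧
    ∀ g h l, c (h, l) - c (g * h, l) + c (g, h * l) - c (g, h) = 0}
  add_mem' := by
    rintro a b ⟨ha, ha'⟩ ⟨hb, hb'⟩
    refine ⟨ha.add hb, fun g h l => ?_⟩
    simp only [Pi.add_apply]
    linear_combination ha' g h l + hb' g h l
  zero_mem' := ⟨IsLocallyConstant.const 0, fun _ _ _ => by simp⟩
  neg_mem' := by
    rintro a ⟨ha, ha'⟩
    refine ⟨ha.neg, fun g h l => ?_⟩
    simp only [Pi.neg_apply]
    linear_combination - ha' g h l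

/-- The coboundaries of the continuous 1-cochains. -/
def B2 : AddSubgroup (G × G → ZMod p) where
  carrier := {c | ∃ b : G → ZMod p, IsLocallyConstant b ∧
    ∀ g h, c (g, h) = b h - b (g * h) + b g}
  add_mem' := by
    rintro a b ⟨s, hs, hs'⟩ ⟨t, ht, ht'⟩
    refine ⟨s + t, hs.add ht, fun g h => ?_⟩
    simp only [Pi.add_apply, hs', ht']
    ring
  zero_mem' := ⟨0, IsLocallyConstant.const 0, fun _ _ => by simp⟩
  neg_mem' := by
    rintro a ⟨s, hs, hs'⟩
    refine ⟨-s, hs.neg, fun g h => ?_⟩
    simp only [Pi.neg_apply, hs']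
    ring

/-- `H²(G, ℤ/p)`. -/
def H2 : Type _ := Z2 p G ⧸ (B2 p G).addSubgroupOf (Z2 p G)

instance : AddCommGroup (H2 p G) :=
  QuotientAddGroup.Quotient.addCommGroup ((B2 p G).addSubgroupOf (Z2 p G))

variable {p G}

/-- The class of a cocycle. -/
def cls (c : Z2 p G) : H2 p G :=
  (QuotientAddGroup.mk c : Z2 p G ⧸ (B2 p G).addSubgroupOf (Z2 p G))

/-- The cocycle `(g, h) ↦ f(g) f'(h)`. -/
def cupZ (f f' : H1 p G) : Z2 p G :=
  ⟨fun x => f.1 x.1 * f'.1 x.2,
    (f.2.1.comp_continuous continuous_fst).mul (f'.2.1.comp_continuous continuous_snd), by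
      intro g h l
      simp only [f.2.2, f'.2.2]
      ring⟩

/-- `α` is a sum of `m` cup products of classes of degree one. -/
def IsSumOfSymbols (m : ℕ) (α : H2 p G) : Prop :=
  ∃ ψ ψ' : Fin m → H1 p G, α = ∑ i, cls (cupZ (ψ i) (ψ' i))

/-- The symbol length of a class of degree two, in `ℕ ∪ {∞}`. -/
noncomputable def symbolLength (α : H2 p G) : ℕ∞ :=
  ⨅ m ∈ {m : ℕ | IsSumOfSymbols m α}, (m : ℕ∞)

/-- A defining system for the `n`-fold Massey product of `φ 1, …, φ n` (the other values of `φ`
do not matter): continuous cochains `a i j` for `1 ≤ i < j ≤ n + 1`, `(i, j) ≠ (1, n + 1)`. -/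
structure DefiningSystem (n : ℕ) (φ : ℕ → H1 p G) where
  /-- the cochains -/
  a : ℕ → ℕ → G → ZMod p
  continuous : ∀ i j, 1 ≤ i → i < j → j ≤ n + 1 → ¬ (i = 1 ∧ j = n + 1) →
    IsLocallyConstant (a i j)
  diagonal : ∀ i, 1 ≤ i → i ≤ n → a i (i + 1) = (φ i).1
  relation : ∀ i j, 1 ≤ i → i < j → j ≤ n + 1 → ¬ (i = 1 ∧ j = n + 1) → ∀ g h,
    a i j h - a i j (g * h) + a i j g = ∑ k ∈ Finset.Ioo i j, a i k g * a k j h

/-- The cocycle `c` is the value `∑_{1 < k < n + 1} a 1 k ∪ a k (n + 1)` of the defining system. -/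
def IsValue {n : ℕ} {φ : ℕ → H1 p G} (D : DefiningSystem n φ) (c : Z2 p G) : Prop :=
  ∀ g h, c.1 (g, h) = ∑ k ∈ Finset.Ioo 1 (n + 1), D.a 1 k g * D.a k (n + 1) h

/-- The Massey product `⟨φ 1, …, φ n⟩`: the set of the classes of the values of all defining
systems. -/
def massey (n : ℕ) (φ : ℕ → H1 p G) : Set (H2 p G) :=
  {α | ∃ (D : DefiningSystem n φ) (c : Z2 p G), IsValue D c ∧ α = cls c}

/-- The pull-back of a cocycle along a continuous homomorphism. -/
def pullZ {G' : Type*} [Group G'] [TopologicalSpace G'] (ρ : G →ₜ* G') (c : Z2 p G') :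
    Z2 p G :=
  ⟨fun x => c.1 (ρ x.1, ρ x.2),
    c.2.1.comp_continuous ((ρ.continuous_toFun.comp continuous_fst).prodMk
      (ρ.continuous_toFun.comp continuous_snd)), by
      intro g h l
      simp only [map_mul]
      exact c.2.2 _ _ _⟩

end

end Pool.Agent.J4.H60.MS
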