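import Mathlib

set_option autoImplicit false

/-! # Open subgroups and locally constant functions on Galois groups -/

namespace Pool.Agent.J4.H60.MS

open IntermediateField Topology

section

variable {k L : Type*} [Field k] [Field L] [Algebra k L] [IsGalois k L]

/-- every open subgroup of the Galois group is the stabilizer of an element -/
theorem exists_stabilizer (N : Subgroup (L ≃ₐ[k] L)) (hN : IsOpen (N : Set (L ≃ₐ[k] L))) :
    ∃ z : L, ∀ g : L ≃ₐ[k] L, g z = z ↔ g ∈ N := by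
  have hcl : IsClosed (N : Set (L ≃ₐ[k] L)) := Subgroup.isClosed_of_isOpen N hN
  have h1 : (fixedField N).fixingSubgroup = N :=
    InfiniteGalois.fixingSubgroup_fixedField ⟨N, hcl⟩
  have h2 : FiniteDimensional k (fixedField N) := by
    rw [← InfiniteGalois.isOpen_iff_finite]
    show IsOpen ((fixedField N).fixingSubgroup : Set (L ≃ₐ[k] L))
    rw [h1]
    exact hN
  obtain ⟨α, hα⟩ := Field.exists_primitive_element k (fixedField N)
  refine ⟨α, fun g => ?_⟩
  have h3 : k⟮(α : L)⟯ = fixedField N := by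
    rw [← lift_adjoin_simple, hα, lift_top]
  conv_rhs => rw [← h1, ← h3, IntermediateField.mem_fixingSubgroup_iff]
  have h4 := forall_mem_adjoin_smul_eq_self_iff k (S := {(α : L)}) g
  simpa using h4.symm

/-- a locally constant function is invariant under an open subgroup -/
theorem exists_invariant {T : Type*} (f : (L ≃ₐ[k] L) → T) (hf : IsLocallyConstant f) :
    ∃ W : Subgroup (L ≃ₐ[k] L), IsOpen (W : Set (L ≃ₐ[k] L)) ∧
      ∀ σ, ∀ w ∈ W, f (σ * w) = f σ := by
  classical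
  have h1 : ∀ σ : L ≃ₐ[k] L, ∃ W : Subgroup (L ≃ₐ[k] L), IsOpen (W : Set (L ≃ₐ[k] L)) ∧
      ∀ w ∈ W, f (σ * w) = f σ := by
    intro σ
    have h2 : {w | f (σ * w) = f σ} ∈ 𝓝 (1 : L ≃ₐ[k] L) := by
      have h3 : IsOpen (f ⁻¹' {f σ}) := hf _
      have h4 : IsOpen {w | f (σ * w) = f σ} := h3.preimage (continuous_const_mul σ)
      exact h4.mem_nhds (by simp)
    rw [krullTopology_mem_nhds_one_iff] at h2
    obtain ⟨M, hM, hM2⟩ := h2
    exact ⟨M.fixingSubgroup, M.fixingSubgroup_isOpen, fun w hw => hM2 hw⟩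
  choose W hW hWf using h1
  have hcov : (Set.univ : Set (L ≃ₐ[k] L)) ⊆ ⋃ σ, {τ | σ⁻¹ * τ ∈ W σ} := by
    intro σ _
    exact Set.mem_iUnion.2 ⟨σ, by simp [one_mem]⟩
  obtain ⟨t, ht⟩ := isCompact_univ.elim_finite_subcover (fun σ => {τ | σ⁻¹ * τ ∈ W σ})
    (fun σ => (hW σ).preimage (continuous_const_mul σ⁻¹)) hcov
  refine ⟨⨅ σ ∈ t, W σ, ?_, ?_⟩
  · have : ((⨅ σ ∈ t, W σ : Subgroup (L ≃ₐ[k] L)) : Set (L ≃ₐ[k] L)) = ⋂ σ ∈ t, (W σ : Set _) := by
      ext x
      simp
    rw [this]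
    exact isOpen_biInter_finset fun σ _ => hW σ
  · intro τ w hw
    obtain ⟨σ, hσ, hτ⟩ : ∃ σ ∈ t, σ⁻¹ * τ ∈ W σ := by
      simpa using ht (Set.mem_univ τ)
    have hw' : w ∈ W σ := by
      rw [Subgroup.mem_iInf] at hw
      have := hw σ
      rw [Subgroup.mem_iInf] at this
      exact this hσ
    have e1 : f τ = f σ := by
      have := hWf σ (σ⁻¹ * τ) hτ
      rwa [mul_inv_cancel_left] at this
    have e2 : f (τ * w) = f σ := by
      have := hWf σ (σ⁻¹ * τ * w) ((W σ).mul_mem hτ hw')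
      rwa [← mul_assoc, mul_inv_cancel_left] at this
    rw [e1, e2]

/-- a locally constant function depends only on the value of the automorphism at one element -/
theorem exists_determining {T : Type*} (f : (L ≃ₐ[k] L) → T) (hf : IsLocallyConstant f) :
    ∃ z : L, ∀ σ τ : L ≃ₐ[k] L, σ z = τ z → f σ = f τ := by
  obtain ⟨W, hW, h⟩ := exists_invariant f hf
  obtain ⟨z, hz⟩ := exists_stabilizer W hW
  refine ⟨z, fun σ τ hστ => ?_⟩
  have h1 : (τ⁻¹ * σ) z = z := by
    rw [AlgEquiv.mul_apply, hστ]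
    exact τ.symm_apply_apply z
  have h2 := h τ _ ((hz _).1 h1)
  rwa [mul_inv_cancel_left] at h2

theorem isOpen_eq (z y : L) : IsOpen {g : L ≃ₐ[k] L | g z = y} := by
  rw [isOpen_iff_mem_nhds]
  intro g hg
  have h1 := stabilizer_isOpen_of_isIntegral (K := k) z
  have h2 : IsOpen {τ : L ≃ₐ[k] L | g⁻¹ * τ ∈ MulAction.stabilizer (L ≃ₐ[k] L) z} :=
    h1.preimage (continuous_const_mul g⁻¹)
  refine Filter.mem_of_superset (h2.mem_nhds (by simp [one_mem])) ?_
  intro τ hτ
  have h3 : g⁻¹ (τ z) = z := hτ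
  show τ z = y
  have h4 : g (g⁻¹ (τ z)) = g z := by rw [h3]
  rw [show g (g⁻¹ (τ z)) = τ z from g.apply_symm_apply _] at h4
  rw [h4]
  exact hg

theorem isLocallyConstant_apply (z : L) : IsLocallyConstant fun g : L ≃ₐ[k] L => g z := by
  intro s
  have : (fun g : L ≃ₐ[k] L => g z) ⁻¹' s = ⋃ y ∈ s, {g : L ≃ₐ[k] L | g z = y} := by
    ext g
    simp
  rw [this]
  exact isOpen_biUnion fun y _ => isOpen_eq z y

theorem finite_orbit (z : L) : (Set.range fun g : L ≃ₐ[k] L => g z).Finite := by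
  have h1 : ((minpoly k z).rootSet L).Finite := Polynomial.rootSet_finite _ _
  refine h1.subset ?_
  rintro _ ⟨g, rfl⟩
  rw [Polynomial.mem_rootSet]
  refine ⟨minpoly.ne_zero (Algebra.IsIntegral.isIntegral z), ?_⟩
  have : Polynomial.aeval (g z) (minpoly k z) = g (Polynomial.aeval z (minpoly k z)) := by
    rw [← Polynomial.aeval_algHom_apply]
  show Polynomial.aeval (g z) (minpoly k z) = 0
  rw [this, minpoly.aeval, map_zero]

end

end Pool.Agent.J4.H60.MS
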