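import Pool.Agent.J4.H60.MS.Defs

set_option autoImplicit false

/-! # The maximal pro-`p` quotient of a compact group -/

namespace Pool.Agent.J4.H60.MS

open Topology

section

variable (p : ℕ) (G : Type*) [Group G] [TopologicalSpace G]

variable {G}

/-- the fibre over the value at `1` -/
def fib {T : Type*} (μ : T → T → T) (f : G → T) (hf : ∀ g h, f (g * h) = μ (f g) (f h)) :
    Subgroup G where
  carrier := {g | f g = f 1}
  one_mem' := rfl
  mul_mem' := by
    intro a b ha hb
    show f (a * b) = f 1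
    rw [hf, show f a = f 1 from ha, show f b = f 1 from hb, ← hf, mul_one]
  inv_mem' := by
    intro a ha
    show f a⁻¹ = f 1
    have h1 : f a = f 1 := ha
    rw [← mul_one a⁻¹, hf, ← h1, ← hf, inv_mul_cancel]
    exact h1.symm

variable {T : Type*} (μ : T → T → T) (f : G → T) (hf : ∀ g h, f (g * h) = μ (f g) (f h))

include hf in
theorem coset (g h : G) : f g = f h ↔ f (h⁻¹ * g) = f 1 := by
  constructor
  · intro h1
    rw [hf, h1, ← hf, inv_mul_cancel]
  · intro h1
    have h2 : g = h * (h⁻¹ * g) := by rw [mul_inv_cancel_left]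
    rw [h2, hf, h1, ← hf, mul_one]

theorem mem_fib (g : G) : g ∈ fib μ f hf ↔ f g = f 1 := Iff.rfl

instance fib_normal : (fib μ f hf).Normal := by
  constructor
  intro n hn g
  rw [mem_fib] at hn ⊢
  rw [hf, hf, hn, ← hf, mul_one, ← hf, mul_inv_cancel]

theorem index_fib : (fib μ f hf).index = (Set.range f).ncard := by
  rw [Subgroup.index, ← Nat.card_coe_set_eq]
  refine Nat.card_congr (Equiv.ofBijective
    (Quotient.lift (fun g => (⟨f g, g, rfl⟩ : Set.range f)) ?_) ⟨?_, ?_⟩)
  · intro a b hab
    have h1 : a⁻¹ * b ∈ fib μ f hf := QuotientGroup.leftRel_apply.1 hab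
    refine Subtype.ext ?_
    exact ((coset μ f hf b a).2 h1).symm
  · intro x y
    induction x using Quotient.inductionOn with | _ a => ?_
    induction y using Quotient.inductionOn with | _ b => ?_
    intro h1
    have h2 : f a = f b := congrArg Subtype.val h1
    refine Quotient.sound (QuotientGroup.leftRel_apply.2 ?_)
    exact (coset μ f hf b a).1 h2.symm
  · rintro ⟨_, g, rfl⟩
    exact ⟨Quotient.mk _ g, rfl⟩

variable (hlc : IsLocallyConstant f)
include hlc

theorem isOpen_fib : IsOpen (fib μ f hf : Set G) := hlc {f 1}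

include hf in
/-- a multiplicative function whose number of values is a power of `p` factors through the
maximal pro-`p` quotient -/
theorem invariant_of_ncard (h : ∃ k : ℕ, (Set.range f).ncard = p ^ k) :
    ∀ g, ∀ n ∈ proPKernel p G, f (g * n) = f g := by
  intro g n hn
  have h1 : n ∈ fib μ f hf := by
    refine (Subgroup.mem_sInf.1 hn) _ ⟨inferInstance, isOpen_fib μ f hf hlc, ?_⟩
    rw [index_fib]
    exact h
  rw [mem_fib] at h1
  rw [hf, h1, ← hf, mul_one]

include hf in
/-- the converse -/
theorem ncard_of_invariant [Fact p.Prime] [CompactSpace G] [IsTopologicalGroup G]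
    (h : ∀ g, ∀ n ∈ proPKernel p G, f (g * n) = f g) :
    ∃ k : ℕ, (Set.range f).ncard = p ^ k := by
  classical
  set 𝒩 : Set (Subgroup G) := {N | N.Normal ∧ IsOpen (N : Set G) ∧ ∃ k : ℕ, N.index = p ^ k} with h𝒩
  have hle : proPKernel p G ≤ fib μ f hf := by
    intro n hn
    have := h 1 n hn
    rw [one_mul] at this
    exact this
  -- a finite intersection
  have h1 : ∃ t : Finset 𝒩, (⨅ N ∈ t, (N : Subgroup G)) ≤ fib μ f hf := by
    have hcl : IsCompact ((fib μ f hf : Set G)ᶜ) :=
      (isOpen_fib μ f hf hlc).isClosed_compl.isCompact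
    obtain ⟨t, ht⟩ := hcl.elim_finite_subcover (fun N : 𝒩 => ((N : Subgroup G) : Set G)ᶜ)
      (fun N => (Subgroup.isClosed_of_isOpen _ N.2.2.1).isOpen_compl) (by
        intro g hg
        by_contra hcon
        refine hg (hle ?_)
        rw [proPKernel, Subgroup.mem_sInf]
        intro N hN
        by_contra hgN
        exact hcon (Set.mem_iUnion.2 ⟨⟨N, hN⟩, hgN⟩))
    refine ⟨t, fun g hg => ?_⟩
    by_contra hcon
    obtain ⟨N, hN⟩ := Set.mem_iUnion.1 (ht hcon)
    obtain ⟨hNt, hN⟩ := Set.mem_iUnion.1 hN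
    rw [Subgroup.mem_iInf] at hg
    have := hg N
    rw [Subgroup.mem_iInf] at this
    exact hN (this hNt)
  obtain ⟨t, ht⟩ := h1
  have h2 : ∀ t : Finset 𝒩, ∃ k : ℕ, (⨅ N ∈ t, (N : Subgroup G)).index = p ^ k := by
    intro t
    induction t using Finset.induction_on with
    | empty => exact ⟨0, by simp⟩
    | insert N t hN ih =>
      rw [Finset.iInf_insert]
      obtain ⟨k, hk⟩ := ih
      obtain ⟨hnor, -, l, hl⟩ := N.2
      have := hnor
      set B : Subgroup G := ⨅ N ∈ t, (N : Subgroup G)
      have h3 : ((N : Subgroup G) ⊓ B).index ∣ p ^ l * p ^ k := by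
        have h4 : ((N : Subgroup G) ⊓ B).relIndex B * B.index = ((N : Subgroup G) ⊓ B).index :=
          Subgroup.relIndex_mul_index inf_le_right
        rw [← h4, hk]
        refine Nat.mul_dvd_mul ?_ dvd_rfl
        rw [Subgroup.inf_relIndex_right]
        rw [← hl]
        exact Subgroup.relIndex_dvd_index_of_normal _ _
      rw [← pow_add] at h3
      obtain ⟨j, -, hj⟩ := (Nat.dvd_prime_pow Fact.out).1 h3
      exact ⟨j, hj⟩
  obtain ⟨k, hk⟩ := h2 t
  have h3 := Subgroup.index_dvd_of_le ht
  rw [hk, index_fib] at h3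
  obtain ⟨j, -, hj⟩ := (Nat.dvd_prime_pow Fact.out).1 h3
  exact ⟨j, hj⟩

end

end Pool.Agent.J4.H60.MS
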