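import Pool.Agent.J4.H60.MS.Core
import Pool.Agent.J4.H60.MS.Gal

set_option autoImplicit false

/-! # Transfer between the Galois group of an ultraproduct and the Galois groups of the factors -/

namespace Pool.Agent.J4.H60.MS

open Filter

universe u

variable (U : Ultrafilter ℕ) {K S : ℕ → Type u} [∀ m, Field (K m)] [∀ m, Field (S m)]
  [∀ m, Algebra (K m) (S m)] [∀ m, IsGalois (K m) (S m)] [∀ m, IsSepClosed (S m)]
  (E : Type u) [Field E] [Algebra (Up U K) E] [IsGalois (Up U K) E] [IsSepClosed E]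

/-- limits of sequences in finite types -/
theorem exists_ulim {T : Type*} [Finite T] (a : ℕ → T) : ∃ t, ∀ᶠ m in (U : Filter ℕ), a m = t := by
  obtain ⟨t, ht⟩ := Ultrafilter.eq_pure_of_finite (U.map a)
  refine ⟨t, ?_⟩
  have h1 : ({t} : Set T) ∈ U.map a := by
    rw [ht]
    exact Filter.mem_pure.2 rfl
  exact h1

/-- the transfer principle -/
theorem forall_of_families {A : ℕ → Type*} [∀ m, Nonempty (A m)] (P : ∀ m, A m → Prop)
    (h : ∀ a : ∀ m, A m, ∀ᶠ m in (U : Filter ℕ), P m (a m)) :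
    ∀ᶠ m in (U : Filter ℕ), ∀ x, P m x := by
  classical
  by_contra hcon
  rw [← Ultrafilter.eventually_not] at hcon
  have h1 := h fun m => if h : ∃ x, ¬ P m x then h.choose else Classical.arbitrary _
  obtain ⟨m, hm1, hm2⟩ := (hcon.and h1).exists
  push Not at hm1
  simp only [dif_pos hm1] at hm2
  exact hm1.choose_spec hm2

/-- descent of locally constant functions -/
theorem descend {T : Type*} (f : (E ≃ₐ[Up U K] E) → T) (hf : IsLocallyConstant f) :
    ∃ f' : ∀ m, (S m ≃ₐ[K m] S m) → T, (∀ m, IsLocallyConstant (f' m)) ∧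
      ∀ θ : ∀ m, S m ≃ₐ[K m] S m, ∀ᶠ m in (U : Filter ℕ), f' m (θ m) = f (pro U K S E θ) := by
  classical
  obtain ⟨z, hz⟩ := exists_determining f hf
  let w : E → ∀ m, S m := fun y => rep U S (emb U K S E y)
  have hw : ∀ y, cl U (w y) = emb U K S E y := fun y => cl_rep U _
  let F : ∀ m, S m → T := fun m x =>
    if h : ∃ σ : E ≃ₐ[Up U K] E, x = w (σ z) m then f h.choose else f 1
  refine ⟨fun m g => F m (g (w z m)), fun m => ?_, fun θ => ?_⟩
  · exact (isLocallyConstant_apply (k := K m) (w z m)).comp (F m)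
  · have h1 : ∀ᶠ m in (U : Filter ℕ), θ m (w z m) = w (pro U K S E θ z) m := by
      rw [← cl_eq, hw, emb_pro, ← hw, act_cl]
    have hfin := finite_orbit (k := Up U K) z
    have h2 : ∀ᶠ m in (U : Filter ℕ), ∀ y ∈ hfin.toFinset, ∀ y' ∈ hfin.toFinset,
        w y m = w y' m → y = y' := by
      rw [Filter.eventually_all_finset]
      intro y _
      rw [Filter.eventually_all_finset]
      intro y' _
      by_cases hyy : y = y'
      · exact Eventually.of_forall fun m _ => hyy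
      · have h3 : ¬ ∀ᶠ m in (U : Filter ℕ), w y m = w y' m := by
          rw [← cl_eq, hw, hw]
          exact fun h => hyy ((emb U K S E).injective h)
        rw [← Ultrafilter.eventually_not] at h3
        filter_upwards [h3] with m hm h
        exact absurd h hm
    filter_upwards [h1, h2] with m hm1 hm2
    have h3 : ∃ σ : E ≃ₐ[Up U K] E, θ m (w z m) = w (σ z) m := ⟨_, hm1⟩
    have h4 : F m (θ m (w z m)) = f h3.choose := by
      simp only [F, dif_pos h3]
    rw [h4]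
    refine hz _ _ (hm2 _ ?_ _ ?_ ?_)
    · rw [Set.Finite.mem_toFinset]
      exact ⟨_, rfl⟩
    · rw [Set.Finite.mem_toFinset]
      exact ⟨_, rfl⟩
    · rw [← h3.choose_spec, hm1]

/-- ascent of multiplicative maps to a finite type with a binary operation -/
theorem ascend {T : Type*} [Finite T] (μ : T → T → T) (f : ∀ m, (S m ≃ₐ[K m] S m) → T)
    (hlf : ∀ m, IsLocallyConstant (f m)) (hf : ∀ m g h, f m (g * h) = μ (f m g) (f m h)) :
    ∃ r : (E ≃ₐ[Up U K] E) → T, IsLocallyConstant r ∧ (∀ σ τ, r (σ * τ) = μ (r σ) (r τ)) ∧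
      ∀ θ : ∀ m, S m ≃ₐ[K m] S m, ∀ᶠ m in (U : Filter ℕ), f m (θ m) = r (pro U K S E θ) := by
  classical
  -- the fibres are the cosets of an open subgroup
  have hcos : ∀ m (g h : S m ≃ₐ[K m] S m), f m g = f m h ↔ f m (h⁻¹ * g) = f m 1 := by
    intro m g h
    constructor
    · intro h1
      rw [hf, h1, ← hf, inv_mul_cancel]
    · intro h1
      have h2 : g = h * (h⁻¹ * g) := by rw [mul_inv_cancel_left]
      rw [h2, hf, h1, ← hf, mul_one]
  let N : ∀ m, Subgroup (S m ≃ₐ[K m] S m) := fun m =>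
    { carrier := {g | f m g = f m 1}
      one_mem' := rfl
      mul_mem' := by
        intro a b ha hb
        show f m (a * b) = f m 1
        rw [hf, show f m a = f m 1 from ha, show f m b = f m 1 from hb, ← hf, mul_one]
      inv_mem' := by
        intro a ha
        show f m a⁻¹ = f m 1
        have h1 : f m a = f m 1 := ha
        have h2 := (hcos m 1 a).1 h1.symm
        rwa [mul_one] at h2 }
  have h1 : ∀ m, ∃ z : S m, ∀ g : S m ≃ₐ[K m] S m, g z = z ↔ f m g = f m 1 := by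
    intro m
    obtain ⟨z, hz⟩ := exists_stabilizer (k := K m) (N m) (hlf m {f m 1})
    exact ⟨z, fun g => hz g⟩
  choose zr hzr using h1
  have hzr' : ∀ m (g h : S m ≃ₐ[K m] S m), g (zr m) = h (zr m) ↔ f m g = f m h := by
    intro m g h
    have h2 := hzr m (h⁻¹ * g)
    have h3 : (h⁻¹ * g) (zr m) = zr m ↔ g (zr m) = h (zr m) := by
      rw [AlgEquiv.mul_apply]
      constructor
      · intro h4
        have h5 := congrArg h h4
        rwa [show h (h⁻¹ (g (zr m))) = g (zr m) from h.apply_symm_apply _] at h5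
      · intro h4
        rw [h4]
        exact h.symm_apply_apply _
    rw [h3] at h2
    exact h2.trans (hcos m g h).symm
  -- the limits
  have hlim : ∀ θ : ∀ m, S m ≃ₐ[K m] S m, ∃ q : T, ∀ᶠ m in (U : Filter ℕ), f m (θ m) = q :=
    fun θ => exists_ulim U fun m => f m (θ m)
  choose l hl using hlim
  have hll : ∀ θ θ' : ∀ m, S m ≃ₐ[K m] S m, act U θ (cl U zr) = act U θ' (cl U zr) ↔ l θ = l θ' := by
    intro θ θ'
    rw [act_cl, act_cl, cl_eq]
    constructor
    · intro h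
      obtain ⟨m, hm1, hm2, hm3⟩ := (h.and ((hl θ).and (hl θ'))).exists
      rw [← hm2, ← hm3]
      exact (hzr' m _ _).1 hm1
    · intro h
      filter_upwards [hl θ, hl θ'] with m h2 h3
      rw [hzr' m, h2, h3, h]
  have hfin : (Set.range fun θ : ∀ m, S m ≃ₐ[K m] S m => act U θ (cl U zr)).Finite := by
    have h2 : (Set.range fun θ : ∀ m, S m ≃ₐ[K m] S m => act U θ (cl U zr)) ⊆
        (fun q : T => if h : ∃ θ : ∀ m, S m ≃ₐ[K m] S m, l θ = q then
          act U h.choose (cl U zr) else 0) '' Set.univ := by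
      rintro _ ⟨θ, rfl⟩
      refine ⟨l θ, Set.mem_univ _, ?_⟩
      have h3 : ∃ θ' : ∀ m, S m ≃ₐ[K m] S m, l θ' = l θ := ⟨θ, rfl⟩
      simp only [dif_pos h3]
      exact (hll _ _).2 h3.choose_spec
    exact (Set.finite_univ.image _).subset h2
  obtain ⟨z, hz⟩ := mem_range_emb U E (isSeparable_of_orbit U (cl U zr) hfin)
  have hpz : ∀ θ θ' : ∀ m, S m ≃ₐ[K m] S m, pro U K S E θ z = pro U K S E θ' z ↔ l θ = l θ' := by
    intro θ θ'
    rw [← hll, ← hz, ← emb_pro, ← emb_pro]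
    exact (emb U K S E).injective.eq_iff.symm
  -- density
  have hden : ∀ (σ : E ≃ₐ[Up U K] E) (x : E), ∃ θ : ∀ m, S m ≃ₐ[K m] S m,
      pro U K S E θ x = σ x := by
    intro σ x
    obtain ⟨τ, hτ, θ, rfl⟩ := (dense_pro U (K := K) (S := S) E).inter_open_nonempty _
      (isOpen_eq x (σ x)) ⟨σ, rfl⟩
    exact ⟨θ, hτ⟩
  have hfun : ∃ F : E → T, ∀ θ : ∀ m, S m ≃ₐ[K m] S m, F (pro U K S E θ z) = l θ := by
    refine ⟨fun x => if h : ∃ θ : ∀ m, S m ≃ₐ[K m] S m, pro U K S E θ z = x then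
      l h.choose else l 1, fun θ => ?_⟩
    have h3 : ∃ θ' : ∀ m, S m ≃ₐ[K m] S m, pro U K S E θ' z = pro U K S E θ z := ⟨θ, rfl⟩
    simp only [dif_pos h3]
    exact (hpz _ _).1 h3.choose_spec
  obtain ⟨F, hF⟩ := hfun
  have hlc : IsLocallyConstant fun σ : E ≃ₐ[Up U K] E => F (σ z) :=
    (isLocallyConstant_apply (k := Up U K) z).comp F
  have hlmul : ∀ θ θ' : ∀ m, S m ≃ₐ[K m] S m, l (θ * θ') = μ (l θ) (l θ') := by
    intro θ θ'
    obtain ⟨m, h1, h2, h3⟩ := ((hl (θ * θ')).and ((hl θ).and (hl θ'))).exists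
    rw [← h1, ← h2, ← h3]
    exact hf m _ _
  have hmul : ∀ σ τ : E ≃ₐ[Up U K] E, F ((σ * τ) z) = μ (F (σ z)) (F (τ z)) := by
    intro σ τ
    obtain ⟨θ', hθ'⟩ := hden τ z
    -- choose `θ` which agrees with `σ` at `z` and at `τ z`
    have hO := (isOpen_eq (k := Up U K) z (σ z)).inter (isOpen_eq (k := Up U K) (τ z) (σ (τ z)))
    obtain ⟨τ', hτ', θ, rfl⟩ := (dense_pro U (K := K) (S := S) E).inter_open_nonempty _ hO
      ⟨σ, rfl, rfl⟩
    obtain ⟨h5, h6⟩ := hτ'
    have h5' : pro U K S E θ z = σ z := h5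
    have h6' : pro U K S E θ (τ z) = σ (τ z) := h6
    have h7 : (σ * τ) z = pro U K S E (θ * θ') z := by
      rw [map_mul, AlgEquiv.mul_apply, AlgEquiv.mul_apply, hθ', h6']
    rw [h7, hF, hlmul, ← h5', ← hθ', hF, hF]
  refine ⟨fun σ => F (σ z), hlc, hmul, fun θ => ?_⟩
  filter_upwards [hl θ] with m hm
  rw [hm]
  exact (hF θ).symm

/-- the ranges agree -/
theorem range_eq {T : Type*} [Finite T] (f : ∀ m, (S m ≃ₐ[K m] S m) → T)
    (r : (E ≃ₐ[Up U K] E) → T) (hr : IsLocallyConstant r)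
    (h : ∀ θ : ∀ m, S m ≃ₐ[K m] S m, ∀ᶠ m in (U : Filter ℕ), f m (θ m) = r (pro U K S E θ)) :
    ∀ᶠ m in (U : Filter ℕ), Set.range (f m) = Set.range r := by
  have h1 : ∀ᶠ m in (U : Filter ℕ), ∀ g, f m g ∈ Set.range r := by
    refine forall_of_families U (fun m g => f m g ∈ Set.range r) fun θ => ?_
    filter_upwards [h θ] with m hm
    rw [hm]
    exact ⟨_, rfl⟩
  have h2 : ∀ᶠ m in (U : Filter ℕ), ∀ t ∈ Set.range r, t ∈ Set.range (f m) := by
    rw [Filter.eventually_all_finite (Set.toFinite _)]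
    rintro _ ⟨σ, rfl⟩
    obtain ⟨τ, hτ, θ, rfl⟩ := (dense_pro U (K := K) (S := S) E).inter_open_nonempty _
      (hr {r σ}) ⟨σ, rfl⟩
    filter_upwards [h θ] with m hm
    refine ⟨θ m, ?_⟩
    rw [hm]
    exact hτ
  filter_upwards [h1, h2] with m h3 h4
  refine Set.Subset.antisymm ?_ h4
  rintro _ ⟨g, rfl⟩
  exact h3 g

end Pool.Agent.J4.H60.MS
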