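import Pool.Agent.J4.H60.MS.Grp
import Pool.Agent.J4.H60.MS.Transfer

set_option autoImplicit false

/-! # Uniform bounds for the number of symbols -/

namespace Pool.Agent.J4.H60.MS

open Filter Topology

universe u

/-- the maximal pro-`p` Galois group, unfolded -/
abbrev GFq (p : ℕ) (F : Type u) [Field F] : Type u :=
  (SeparableClosure F ≃ₐ[F] SeparableClosure F) ⧸
    proPKernel p (SeparableClosure F ≃ₐ[F] SeparableClosure F)

/-- the cochain `c` is cohomologous to a sum of `k` cup products -/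
def SL (p k : ℕ) {G : Type*} [Group G] [TopologicalSpace G] (c : G → G → ZMod p) : Prop :=
  ∃ (ψ ψ' : Fin k → G → ZMod p) (b : G → ZMod p),
    (∀ i, IsLocallyConstant (ψ i)) ∧ (∀ i g h, ψ i (g * h) = ψ i g + ψ i h) ∧
    (∀ i, IsLocallyConstant (ψ' i)) ∧ (∀ i g h, ψ' i (g * h) = ψ' i g + ψ' i h) ∧
    IsLocallyConstant b ∧
    ∀ g h, c g h = ∑ i, ψ i g * ψ' i h + (b h - b (g * h) + b g)

theorem SL.mono {p k l : ℕ} {G : Type*} [Group G] [TopologicalSpace G] {c : G → G → ZMod p}
    (h : SL p k c) (hkl : k ≤ l) : SL p l c := by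
  obtain ⟨ψ, ψ', b, h1, h2, h3, h4, h5, h6⟩ := h
  refine ⟨fun i => if hi : i.1 < k then ψ ⟨i.1, hi⟩ else 0,
    fun i => if hi : i.1 < k then ψ' ⟨i.1, hi⟩ else 0, b, ?_, ?_, ?_, ?_, h5, ?_⟩
  · intro i
    by_cases hi : i.1 < k
    · simp only [dif_pos hi]; exact h1 _
    · simp only [dif_neg hi]; exact IsLocallyConstant.const 0
  · intro i g h
    by_cases hi : i.1 < k
    · simp only [dif_pos hi]; exact h2 _ _ _
    · simp only [dif_neg hi, Pi.zero_apply, add_zero]
  · intro i
    by_cases hi : i.1 < k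
    · simp only [dif_pos hi]; exact h3 _
    · simp only [dif_neg hi]; exact IsLocallyConstant.const 0
  · intro i g h
    by_cases hi : i.1 < k
    · simp only [dif_pos hi]; exact h4 _ _ _
    · simp only [dif_neg hi, Pi.zero_apply, add_zero]
  · intro g h
    rw [h6 g h]
    congr 1
    obtain ⟨d, rfl⟩ := Nat.exists_eq_add_of_le hkl
    rw [Fin.sum_univ_add]
    simp

/-- products of locally constant functions with values in a power -/
theorem lc_pi {X ι R : Type*} [TopologicalSpace X] [Finite ι] (f : ι → X → R)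
    (hf : ∀ i, IsLocallyConstant (f i)) : IsLocallyConstant fun x i => f i x := by
  rw [IsLocallyConstant.iff_eventually_eq]
  intro x
  have h1 : ∀ i, ∀ᶠ y in 𝓝 x, f i y = f i x := fun i =>
    (IsLocallyConstant.iff_eventually_eq _).1 (hf i) x
  filter_upwards [eventually_all.2 h1] with y hy
  funext i
  exact hy i

section descent

variable (p : ℕ) {G : Type*} [Group G] [TopologicalSpace G] {T : Type*}

/-- functions on the maximal pro-`p` quotient -/
theorem lc_mk {f : G ⧸ proPKernel p G → T} (hf : IsLocallyConstant f) :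
    IsLocallyConstant fun g : G => f (QuotientGroup.mk g) :=
  hf.comp_continuous continuous_quotient_mk'

theorem exists_lift (f : G → T) (hf : IsLocallyConstant f)
    (hinv : ∀ g, ∀ n ∈ proPKernel p G, f (g * n) = f g) :
    ∃ f' : G ⧸ proPKernel p G → T, IsLocallyConstant f' ∧ ∀ g, f' (QuotientGroup.mk g) = f g := by
  refine ⟨Quotient.lift f ?_, ?_, fun g => rfl⟩
  · intro a b hab
    have h1 : a⁻¹ * b ∈ proPKernel p G := QuotientGroup.leftRel_apply.1 hab
    have h2 := hinv a _ h1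
    rw [mul_inv_cancel_left] at h2
    exact h2.symm
  · intro s
    exact isOpen_coinduced.2 (hf s)

end descent

variable (p : ℕ) [Fact p.Prime]

/-- the uniform bound -/
theorem uniform {T : Type*} [Finite T] (μ : T → T → T) (κ : T → T → ZMod p)
    (h : ∀ (F : Type u) [Field F], (∃ ζ : F, IsPrimitiveRoot ζ p) → ∀ f : GFq p F → T,
      IsLocallyConstant f → (∀ x y, f (x * y) = μ (f x) (f y)) →
      ∃ k, SL p k fun x y => κ (f x) (f y)) :
    ∃ M, ∀ (F : Type u) [Field F], (∃ ζ : F, IsPrimitiveRoot ζ p) → ∀ f : GFq p F → T,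
      IsLocallyConstant f → (∀ x y, f (x * y) = μ (f x) (f y)) →
      SL p M fun x y => κ (f x) (f y) := by
  classical
  by_contra hcon
  push Not at hcon
  choose K hK hζ f hf hfm hno using hcon
  choose ζ hζ using hζ
  let U : Ultrafilter ℕ := Filter.hyperfilter ℕ
  have hU : ∀ k : ℕ, ∀ᶠ m in (U : Filter ℕ), k ≤ m := fun k =>
    (Filter.eventually_cofinite.2 ((Set.finite_lt_nat k).subset fun m hm => by
      simpa using hm)).filter_mono (Filter.hyperfilter_le_cofinite)
  -- the root of unity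
  have hroot : ∃ z : Up U K, IsPrimitiveRoot z p := by
    refine ⟨cl U ζ, ?_⟩
    refine IsPrimitiveRoot.mk_of_lt _ (Fact.out : p.Prime).pos ?_ ?_
    · rw [← map_pow, ← map_one (cl U (K := K)), cl_eq]
      exact Eventually.of_forall fun m => (hζ m).pow_eq_one
    · intro l hl hlp hl1
      rw [← map_pow, ← map_one (cl U (K := K)), cl_eq] at hl1
      obtain ⟨m, hm⟩ := hl1.exists
      exact (hζ m).pow_ne_one_of_pos_of_lt hl.ne' hlp hm
  let S : ℕ → Type u := fun m => SeparableClosure (K m)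
  let E : Type u := SeparableClosure (Up U K)
  have hlc : ∀ m, IsLocallyConstant fun g : S m ≃ₐ[K m] S m => f m (QuotientGroup.mk g) :=
    fun m => lc_mk p (hf m)
  have hmul : ∀ m (g h : S m ≃ₐ[K m] S m), f m (QuotientGroup.mk (g * h)) =
      μ (f m (QuotientGroup.mk g)) (f m (QuotientGroup.mk h)) := fun m g h =>
    hfm m (QuotientGroup.mk g) (QuotientGroup.mk h)
  obtain ⟨r, hr, hrm, hrl⟩ := ascend U (K := K) (S := S) E μ
    (fun m g => f m (QuotientGroup.mk g)) hlc hmul
  -- `r` comes from the maximal pro-`p` quotient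
  have hmk : ∀ (F : Type u) [Field F] (g n : SeparableClosure F ≃ₐ[F] SeparableClosure F),
      n ∈ proPKernel p (SeparableClosure F ≃ₐ[F] SeparableClosure F) →
      (QuotientGroup.mk (g * n) : GFq p F) = QuotientGroup.mk g := by
    intro F _ g n hn
    refine QuotientGroup.eq.2 ?_
    rw [mul_inv_rev, inv_mul_cancel_right]
    exact Subgroup.inv_mem _ hn
  have hcard : ∃ k : ℕ, (Set.range r).ncard = p ^ k := by
    obtain ⟨m, hm⟩ := (range_eq U (K := K) (S := S) E (fun m g => f m (QuotientGroup.mk g)) r hr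
      hrl).exists
    rw [← hm]
    refine ncard_of_invariant p μ _ (hmul m) (hlc m) fun g n hn => ?_
    show f m _ = f m _
    rw [hmk (K m) g n hn]
  obtain ⟨r', hr', hrr⟩ := exists_lift p r hr (invariant_of_ncard p μ r hrm hr hcard)
  have hr'm : ∀ x y, r' (x * y) = μ (r' x) (r' y) := by
    intro x y
    induction x using QuotientGroup.induction_on with | _ x => ?_
    induction y using QuotientGroup.induction_on with | _ y => ?_
    rw [← QuotientGroup.mk_mul, hrr, hrr, hrr, hrm]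
  obtain ⟨k, ψ, ψ', b, h1, h2, h3, h4, h5, h6⟩ := h (Up U K) hroot r' hr' hr'm
  -- the bundle
  let T' := T × (Fin k → ZMod p) × (Fin k → ZMod p) × ZMod p
  let μ' : T' → T' → T' := fun t s => (μ t.1 s.1, t.2.1 + s.2.1, t.2.2.1 + s.2.2.1,
    t.2.2.2 + s.2.2.2 + ∑ i, t.2.1 i * s.2.2.1 i - κ t.1 s.1)
  let B : GFq p (Up U K) → T' := fun x => (r' x, fun i => ψ i x, fun i => ψ' i x, b x)
  have hB : IsLocallyConstant B := hr'.prodMk ((lc_pi _ h1).prodMk ((lc_pi _ h3).prodMk h5))
  have hBm : ∀ x y, B (x * y) = μ' (B x) (B y) := by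
    intro x y
    simp only [B, μ']
    refine Prod.ext (hr'm x y) (Prod.ext ?_ (Prod.ext ?_ ?_))
    · funext i; exact h2 i x y
    · funext i; exact h4 i x y
    · have h7 : κ (r' x) (r' y) = _ := h6 x y
      show b (x * y) = b x + b y + ∑ i, ψ i x * ψ' i y - κ (r' x) (r' y)
      rw [h7]
      ring
  let Bg : (E ≃ₐ[Up U K] E) → T' := fun g => B (QuotientGroup.mk g)
  have hBg : IsLocallyConstant Bg := lc_mk p hB
  have hBgm : ∀ σ τ, Bg (σ * τ) = μ' (Bg σ) (Bg τ) := fun σ τ =>
    hBm (QuotientGroup.mk σ) (QuotientGroup.mk τ)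
  obtain ⟨j, hj⟩ := ncard_of_invariant p μ' Bg hBgm hBg fun g n hn => by
    show B _ = B _
    rw [hmk (Up U K) g n hn]
  obtain ⟨B', hB', hB'l⟩ := descend U (K := K) (S := S) E Bg hBg
  have e1 := range_eq U (K := K) (S := S) E B' Bg hBg hB'l
  have e2 : ∀ᶠ m in (U : Filter ℕ), ∀ x : (S m ≃ₐ[K m] S m) × (S m ≃ₐ[K m] S m),
      B' m (x.1 * x.2) = μ' (B' m x.1) (B' m x.2) := by
    refine forall_of_families U (A := fun m => (S m ≃ₐ[K m] S m) × (S m ≃ₐ[K m] S m))
      (fun m x => B' m (x.1 * x.2) = μ' (B' m x.1) (B' m x.2)) fun a => ?_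
    have := hB'l ((fun m => (a m).1) * (fun m => (a m).2))
    filter_upwards [this, hB'l (fun m => (a m).1), hB'l (fun m => (a m).2)] with m hm1 hm2 hm3
    rw [hm2, hm3, ← hBgm, ← map_mul]
    exact hm1
  have e3 : ∀ᶠ m in (U : Filter ℕ), ∀ g : S m ≃ₐ[K m] S m,
      (B' m g).1 = f m (QuotientGroup.mk g) := by
    refine forall_of_families U (A := fun m => S m ≃ₐ[K m] S m)
      (fun m g => (B' m g).1 = f m (QuotientGroup.mk g)) fun θ => ?_
    filter_upwards [hB'l θ, hrl θ] with m hm1 hm2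
    rw [hm1, hm2]
    exact hrr _
  obtain ⟨m, hm1, hm2, hm3, hm4⟩ := (e1.and (e2.and (e3.and (hU k)))).exists
  -- the functions for the field `K m`
  have hm2' : ∀ g h, B' m (g * h) = μ' (B' m g) (B' m h) := fun g h => hm2 (g, h)
  obtain ⟨C, hC, hCB⟩ := exists_lift p (B' m) (hB' m)
    (invariant_of_ncard p μ' (B' m) hm2' (hB' m) ⟨j, by rw [hm1]; exact hj⟩)
  have hCm : ∀ x y, C (x * y) = μ' (C x) (C y) := by
    intro x y
    induction x using QuotientGroup.induction_on with | _ x => ?_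
    induction y using QuotientGroup.induction_on with | _ y => ?_
    rw [← QuotientGroup.mk_mul, hCB, hCB, hCB, hm2']
  have hCf : ∀ x, (C x).1 = f m x := by
    intro x
    induction x using QuotientGroup.induction_on with | _ x => ?_
    rw [hCB]
    exact hm3 x
  refine hno m (SL.mono (k := k) ⟨fun i x => (C x).2.1 i, fun i x => (C x).2.2.1 i,
    fun x => (C x).2.2.2, fun i => hC.comp fun t => t.2.1 i, ?_,
    fun i => hC.comp fun t => t.2.2.1 i, ?_, hC.comp fun t => t.2.2.2, ?_⟩ hm4)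
  · intro i x y
    exact congrFun (congrArg (fun t : T' => t.2.1) (hCm x y)) i
  · intro i x y
    exact congrFun (congrArg (fun t : T' => t.2.2.1) (hCm x y)) i
  · intro x y
    have h7 : (C (x * y)).2.2.2 = (C x).2.2.2 + (C y).2.2.2 +
        ∑ i, (C x).2.1 i * (C y).2.2.1 i - κ (C x).1 (C y).1 :=
      congrArg (fun t : T' => t.2.2.2) (hCm x y)
    show κ (f m x) (f m y) = ∑ i, (C x).2.1 i * (C y).2.2.1 i + ((C y).2.2.2 -
      (C (x * y)).2.2.2 + (C x).2.2.2)
    rw [h7, ← hCf, ← hCf]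
    ring

/-- the uniform bound for `GFp` -/
theorem uniform' {T : Type*} [Finite T] (μ : T → T → T) (κ : T → T → ZMod p)
    (h : ∀ (F : Type u) [Field F], (∃ ζ : F, IsPrimitiveRoot ζ p) → ∀ f : GFp p F → T,
      IsLocallyConstant f → (∀ x y, f (x * y) = μ (f x) (f y)) →
      ∃ k, SL p k fun x y => κ (f x) (f y)) :
    ∃ M, ∀ (F : Type u) [Field F], (∃ ζ : F, IsPrimitiveRoot ζ p) → ∀ f : GFp p F → T,
      IsLocallyConstant f → (∀ x y, f (x * y) = μ (f x) (f y)) →
      SL p M fun x y => κ (f x) (f y) :=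
  uniform p μ κ h

end Pool.Agent.J4.H60.MS
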