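import Pool.Agent.J4.H60.MS.Up

set_option autoImplicit false

/-! # Ultraproducts of separably closed fields are separably closed -/

namespace Pool.Agent.J4.H60.MS

open Filter Polynomial

universe u

variable (U : Ultrafilter ℕ) {K : ℕ → Type u} [∀ m, Field (K m)]

theorem map_eq_zero {Q : (∀ m, K m)[X]} (h : Q.map (cl U (K := K)) = 0) :
    ∀ᶠ m in (U : Filter ℕ), Q.map (Pi.evalRingHom K m) = 0 := by
  have h1 : ∀ i, ∀ᶠ m in (U : Filter ℕ), (Q.coeff i) m = 0 := by
    intro i
    rw [← cl_eq_zero, ← coeff_map, h, coeff_zero]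
  have h2 : ∀ᶠ m in (U : Filter ℕ), ∀ i ∈ Finset.range (Q.natDegree + 1), (Q.coeff i) m = 0 := by
    rw [Filter.eventually_all_finset]
    exact fun i _ => h1 i
  filter_upwards [h2] with m hm
  ext i
  rw [coeff_map, coeff_zero]
  by_cases hi : i ≤ Q.natDegree
  · exact hm i (Finset.mem_range.2 (by omega))
  · rw [coeff_eq_zero_of_natDegree_lt (by omega)]
    rfl

theorem eval_apply (Q : (∀ m, K m)[X]) (x : ∀ m, K m) (m : ℕ) :
    (Q.eval x) m = (Q.map (Pi.evalRingHom K m)).eval (x m) := by
  rw [eval_map]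
  show Pi.evalRingHom K m (Q.eval x) = _
  rw [← eval₂_hom]
  rfl

instance isSepClosed_up [∀ m, IsSepClosed (K m)] : IsSepClosed (Up U K) := by
  classical
  refine IsSepClosed.of_exists_root _ fun P hP hirr hsep => ?_
  obtain ⟨Q, hQ, hQd, hQm⟩ := lifts_and_natDegree_eq_and_monic (f := cl U (K := K)) (p := P)
    (by
      rw [lifts_iff_coeffs_subset_range]
      intro c _
      exact cl_surjective U c) hP
  obtain ⟨A, B, hAB⟩ := hsep
  obtain ⟨A, rfl⟩ := Polynomial.map_surjective (cl U (K := K)) (cl_surjective U) A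
  obtain ⟨B, rfl⟩ := Polynomial.map_surjective (cl U (K := K)) (cl_surjective U) B
  have h1 : (A * Q + B * derivative Q - 1).map (cl U (K := K)) = 0 := by
    rw [Polynomial.map_sub, Polynomial.map_add, Polynomial.map_mul, Polynomial.map_mul,
      ← derivative_map, hQ, hAB, Polynomial.map_one, sub_self]
  have h2 := map_eq_zero U h1
  have h3 : ∀ᶠ m in (U : Filter ℕ), ∃ x : K m, (Q.map (Pi.evalRingHom K m)).eval x = 0 := by
    filter_upwards [h2] with m hm
    refine IsSepClosed.exists_root _ ?_ ?_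
    · rw [hQm.degree_map, degree_eq_natDegree hQm.ne_zero, hQd]
      have := hirr.natDegree_pos
      exact_mod_cast this.ne'
    · refine ⟨A.map (Pi.evalRingHom K m), B.map (Pi.evalRingHom K m), ?_⟩
      rw [Polynomial.map_sub, Polynomial.map_add, Polynomial.map_mul, Polynomial.map_mul,
        Polynomial.map_one, sub_eq_zero] at hm
      rw [derivative_map]
      exact hm
  let x : ∀ m, K m := fun m =>
    if h : ∃ x : K m, (Q.map (Pi.evalRingHom K m)).eval x = 0 then h.choose else 0
  refine ⟨cl U x, ?_⟩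
  rw [← hQ, eval_map, eval₂_hom, cl_eq_zero]
  filter_upwards [h3] with m hm
  rw [eval_apply]
  simp only [x, dif_pos hm]
  exact hm.choose_spec

end Pool.Agent.J4.H60.MS
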