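import Mathlib

set_option autoImplicit false

/-! # Ultraproducts of fields -/

namespace Pool.Agent.J4.H60.MS

open Filter

universe u

section

variable (U : Ultrafilter ℕ) (K : ℕ → Type u) [∀ m, Field (K m)]

/-- the ideal of the families that vanish almost everywhere -/
def upIdeal : Ideal (∀ m, K m) where
  carrier := {x | ∀ᶠ m in (U : Filter ℕ), x m = 0}
  add_mem' := by
    intro a b ha hb
    simp only [Set.mem_ofPred_eq] at ha hb ⊢
    filter_upwards [ha, hb] with m h1 h2
    simp [h1, h2]
  zero_mem' := by simp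
  smul_mem' := by
    intro c x hx
    simp only [Set.mem_ofPred_eq] at hx ⊢
    filter_upwards [hx] with m h1
    simp [h1]

variable {K} in
theorem mem_upIdeal {x : ∀ m, K m} : x ∈ upIdeal U K ↔ ∀ᶠ m in (U : Filter ℕ), x m = 0 := Iff.rfl

instance upIdeal_isMaximal : (upIdeal U K).IsMaximal := by
  classical
  rw [Ideal.isMaximal_iff]
  refine ⟨?_, ?_⟩
  · intro h
    rw [mem_upIdeal] at h
    simp only [Pi.one_apply, one_ne_zero, eventually_false_iff_eq_bot] at h
    exact U.neBot.ne h
  · intro J x hJ hx hxJ
    rw [mem_upIdeal, ← Ultrafilter.eventually_not] at hx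
    have h1 : (fun m => (x m)⁻¹) * x ∈ J := J.mul_mem_left _ hxJ
    have h2 : 1 - (fun m => (x m)⁻¹) * x ∈ upIdeal U K := by
      rw [mem_upIdeal]
      filter_upwards [hx] with m hm
      simp [hm]
    have h3 := J.add_mem (hJ h2) h1
    simpa using h3

/-- the ultraproduct -/
def Up : Type u := (∀ m, K m) ⧸ upIdeal U K

noncomputable instance : Field (Up U K) := Ideal.Quotient.field (upIdeal U K)

variable {K}

/-- the class of a family -/
noncomputable def cl : (∀ m, K m) →+* Up U K := Ideal.Quotient.mk (upIdeal U K)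

theorem cl_surjective : Function.Surjective (cl U (K := K)) := Ideal.Quotient.mk_surjective

theorem cl_eq_zero {x : ∀ m, K m} : cl U x = 0 ↔ ∀ᶠ m in (U : Filter ℕ), x m = 0 := by
  exact Ideal.Quotient.eq_zero_iff_mem (I := upIdeal U K)

theorem cl_eq {x y : ∀ m, K m} : cl U x = cl U y ↔ ∀ᶠ m in (U : Filter ℕ), x m = y m := by
  rw [← sub_eq_zero, ← map_sub, cl_eq_zero]
  simp [sub_eq_zero]

variable (K)

/-- representatives -/
noncomputable def rep (x : Up U K) : ∀ m, K m := (cl_surjective U x).choose

variable {K}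

@[simp] theorem cl_rep (x : Up U K) : cl U (rep U K x) = x := (cl_surjective U x).choose_spec

/-- the map of ultraproducts induced by a family of ring homomorphisms -/
noncomputable def upMap {L : ℕ → Type u} [∀ m, Field (L m)] (f : ∀ m, K m →+* L m) :
    Up U K →+* Up U L :=
  Ideal.Quotient.lift (upIdeal U K)
    ((cl U (K := L)).comp (RingHom.pi fun m => (f m).comp (Pi.evalRingHom K m))) (by
      intro x hx
      rw [mem_upIdeal] at hx
      rw [RingHom.comp_apply, cl_eq_zero]
      filter_upwards [hx] with m hm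
      show (f m) (x m) = 0
      rw [hm, map_zero])

@[simp] theorem upMap_cl {L : ℕ → Type u} [∀ m, Field (L m)] (f : ∀ m, K m →+* L m)
    (x : ∀ m, K m) : upMap U f (cl U x) = cl U (fun m => f m (x m)) := rfl

end

section

variable (U : Ultrafilter ℕ) (K L : ℕ → Type u) [∀ m, Field (K m)] [∀ m, Field (L m)]
  [∀ m, Algebra (K m) (L m)]

noncomputable instance : Algebra (Up U K) (Up U L) :=
  (upMap U fun m => algebraMap (K m) (L m)).toAlgebra

variable {K} in
theorem algebraMap_cl (x : ∀ m, K m) :
    algebraMap (Up U K) (Up U L) (cl U x) = cl U (fun m => algebraMap (K m) (L m) (x m)) := rfl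

variable {K L}

/-- the action of families of automorphisms -/
noncomputable def act (U : Ultrafilter ℕ) {K L : ℕ → Type u} [∀ m, Field (K m)]
    [∀ m, Field (L m)] [∀ m, Algebra (K m) (L m)] : (∀ m, L m ≃ₐ[K m] L m) →* (Up U L ≃ₐ[Up U K] Up U L) where
  toFun θ :=
    AlgEquiv.ofRingEquiv (f := RingEquiv.ofRingHom
      (upMap U fun m => (θ m : L m →+* L m)) (upMap U fun m => ((θ m).symm : L m →+* L m))
      (by
        refine RingHom.ext fun x => ?_
        obtain ⟨x, rfl⟩ := cl_surjective U x
        simp)
      (by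
        refine RingHom.ext fun x => ?_
        obtain ⟨x, rfl⟩ := cl_surjective U x
        simp))
      (by
        intro r
        obtain ⟨r, rfl⟩ := cl_surjective U r
        rw [algebraMap_cl]
        show cl U (fun m => (θ m) (algebraMap (K m) (L m) (r m))) = _
        congr 1
        funext m
        exact (θ m).commutes (r m))
  map_one' := by
    ext x
    obtain ⟨x, rfl⟩ := cl_surjective U x
    rfl
  map_mul' := by
    intro θ θ'
    ext x
    obtain ⟨x, rfl⟩ := cl_surjective U x
    rfl

@[simp] theorem act_cl (θ : ∀ m, L m ≃ₐ[K m] L m) (x : ∀ m, L m) :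
    act U θ (cl U x) = cl U (fun m => θ m (x m)) := rfl

end

end Pool.Agent.J4.H60.MS
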